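import Pool.Agent.Q23.DD.Sub
import Pool.Agent.Y771.RP.Rel

/-!
# `π` and `e^(p(q))`, logarithms and exponential integrals, for almost all algebraic numbers `q`

Let `p_1, …, p_m` be complex polynomials such that no nontrivial integer linear combination of them is constant, and let
`Q_1, …, Q_s` be different integer linear combinations of them (one of them may be `0`). We consider the functions
`e^(p_j)`, the integrals of the functions `z^k e^(Q_l)` with `k ≤ deg Q_l - 2` (such as the error functions), and those of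
the functions `e^(Q_l) / (z - w_i)` (such as the exponential, sine and cosine integrals and, for `Q_l = 0`, the logarithms
of `z - w_i`). For almost all elements `q` of number fields of bounded degree (in particular for almost all rational
numbers), and for almost all `n`-tuples of them simultaneously, the values of all these functions at `q` satisfy no
polynomial relation of bounded degree and polynomially bounded height, not even an approximate one, and not even relative
to arbitrary constants such as `π`, `e`, `γ`, …. In particular, for a nonconstant real polynomial `p`, the numbers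
`π + e^(p(q))` and `π - e^(p(q))` are for almost all rational numbers `q` not very close to rational numbers of
polynomially bounded height.
-/

set_option autoImplicit false

open Set Filter Topology NumberField

namespace Pool.Agent.Results.MP_363d4d_nt.ExponentialsOfPolynomials

/-- The elements of the number field `F` with image in `K` which are quotients of two integers of `F` all of whose
conjugates have absolute value at most `T`. -/
def Points (F : Type) [Field F] [NumberField F] (ι : F →+* ℂ) (K : Set ℂ) (T : ℝ) : Set F :=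
  {x | ι x ∈ K ∧ ∃ a b : 𝓞 F, b ≠ 0 ∧ (∀ φ : F →+* ℂ, ‖φ a‖ ≤ T ∧ ‖φ b‖ ≤ T) ∧ x = a / b}

/-- The `n`-tuples `q` of points of `F` for which there is a polynomial `P` of degree at most `d` in each variable, with
coefficients of the form `∑ ξ_a ι(c_a)`, where the `c_a` are integers of `F` all of whose conjugates have absolute value
at most `T ^ A`, such that the value of `P` at the numbers `f y (ι (q h))` is at most `T ^ (-B)` times the absolute value
of some nonzero coefficient of `P`. -/
def Exceptional {κ : Type} (f : κ → ℂ → ℂ) (n d : ℕ) {g : ℕ} (F : Type) [Field F] [NumberField F] (ι : F →+* ℂ)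
    (ξ : Fin g → ℂ) (K : Set ℂ) (A B T : ℝ) : Set (Fin n → F) :=
  {q | (∀ h, q h ∈ Points F ι K T) ∧ ∃ P : MvPolynomial (Fin n × κ) ℂ, (∀ x, P.degreeOf x ≤ d) ∧
    (∀ s, ∃ c : Fin g → 𝓞 F, (∀ a (φ : F →+* ℂ), ‖φ (c a)‖ ≤ T ^ A) ∧ P.coeff s = ∑ a, ξ a * ι (c a)) ∧
    ∃ s₀, P.coeff s₀ ≠ 0 ∧ ‖MvPolynomial.aeval (fun x : Fin n × κ => f x.2 (ι (q x.1))) P‖ ≤
      T ^ (-B) * ‖P.coeff s₀‖}

/-- For every compact subset `K` of `U` and all `m`, `n`, `g`, `d`, `A` and `ε > 0` there are `B`, `C`, `T₀` such that for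
every number field `F` of degree at most `m`, every embedding of `F` in `ℂ`, all complex numbers `ξ_1, …, ξ_g` and all
`T ≥ T₀` the number of exceptional `n`-tuples is at most `C T^ε N^(n - 1)`, where `N` is the number of points of `F` in
`K`. -/
def FewExceptions {κ : Type} (U : Set ℂ) (f : κ → ℂ → ℂ) : Prop :=
  ∀ (K : Set ℂ), IsCompact K → K ⊆ U → ∀ (m n g d : ℕ) (A ε : ℝ), 0 < ε →
    ∃ B C T₀ : ℝ, ∀ (F : Type) [Field F] [NumberField F], Module.finrank ℚ F ≤ m → ∀ (ι : F →+* ℂ) (ξ : Fin g → ℂ)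
      (T : ℝ), T₀ ≤ T → (Exceptional f n d F ι ξ K A B T).Finite ∧
        ((Exceptional f n d F ι ξ K A B T).ncard : ℝ) ≤ C * T ^ ε * ((Points F ι K T).ncard : ℝ) ^ (n - 1)

/-- The polynomial `Q_l = ∑_j ν_{lj} p_j`. -/
noncomputable def comb {m s : ℕ} (p : Fin m → Polynomial ℂ) (ν : Fin s → Fin m → ℤ) (l : Fin s) : Polynomial ℂ :=
  ∑ j, Polynomial.C (ν l j : ℂ) * p j

/-- Names for the kinds of functions. -/
inductive Kind (m s r : ℕ)
  | expo (j : Fin m)
  | mono (l : Fin s) (k : ℕ)
  | pole (l : Fin s) (i : Fin r)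

/-- The function `g` is on `U` of the given kind: the exponential `e^(p_j)`, an integral of `z^k e^(Q_l)`, where
`k + 2 ≤ deg Q_l`, or an integral of `e^(Q_l) / (z - w_i)`. -/
def IsKind {m s r : ℕ} (p : Fin m → Polynomial ℂ) (ν : Fin s → Fin m → ℤ) (w : Fin r → ℂ) (U : Set ℂ) (g : ℂ → ℂ) :
    Kind m s r → Prop
  | .expo j => ∀ z ∈ U, g z = Complex.exp ((p j).eval z)
  | .mono l k => k + 2 ≤ (comb p ν l).natDegree ∧
      ∀ z ∈ U, HasDerivAt g (z ^ k * Complex.exp ((comb p ν l).eval z)) z
  | .pole l i => ∀ z ∈ U, HasDerivAt g (Complex.exp ((comb p ν l).eval z) / (z - w i)) z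

/-- the code of a kind -/
def toSum {m s r : ℕ} : Kind m s r → Fin m ⊕ (Fin s × ℕ) ⊕ (Fin s × Fin r)
  | .expo j => Sum.inl j
  | .mono l k => Sum.inr (Sum.inl (l, k))
  | .pole l i => Sum.inr (Sum.inr (l, i))

theorem toSum_inj {m s r : ℕ} : Function.Injective (toSum : Kind m s r → _) := by
  rintro (j | ⟨l, k⟩ | ⟨l, i⟩) (j' | ⟨l', k'⟩ | ⟨l', i'⟩) h <;>
    simp only [toSum, Sum.inl.injEq, Sum.inr.injEq, Prod.mk.injEq, reduceCtorEq] at h
  · rw [h]
  · rw [h.1, h.2]
  · rw [h.1, h.2]

theorem general {κ : Type} [Fintype κ] {m s r : ℕ} (p : Fin m → Polynomial ℂ)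
    (hp : ∀ k : Fin m → ℤ, (∑ j, Polynomial.C (k j : ℂ) * p j).natDegree = 0 → k = 0)
    (ν : Fin s → Fin m → ℤ) (hν : Function.Injective ν) (w : Fin r → ℂ) (hw : Function.Injective w) (U : Set ℂ)
    (hU : IsOpen U) (f : κ → ℂ → ℂ) (kind : κ → Kind m s r) (hk : Function.Injective kind)
    (hf : ∀ y, IsKind p ν w U (f y) (kind y)) : FewExceptions U f := by
  intro K hK hKU m' n g d A ε hε
  have han : ∀ y, ∀ t ∈ U, AnalyticAt ℂ (f y) t := by
    intro y t ht
    have hy := hf y
    have hd : DifferentiableOn ℂ (f y) U := by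
      intro z hz
      refine DifferentiableAt.differentiableWithinAt ?_
      generalize kind y = c at hy
      rcases c with j | ⟨l, k⟩ | ⟨l, i⟩
      · have h1 : AnalyticAt ℂ (fun z => Complex.exp ((p j).eval z)) z :=
          (AnalyticOnNhd.eval_polynomial (p j) z (mem_univ _)).cexp
        refine h1.differentiableAt.congr_of_eventuallyEq ?_
        filter_upwards [hU.mem_nhds hz] with z' hz'
        exact hy z' hz'
      · exact (hy.2 z hz).differentiableAt
      · exact (hy z hz).differentiableAt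
    exact (hd.analyticOnNhd hU) t ht
  have hloc := Q23.DD.expint_sub p hp ν hν (comb p ν) (fun l => rfl) w hw U hU (fun y => toSum (kind y))
    (toSum_inj.comp hk) f
    (by
      intro y j h
      have h1 : kind y = .expo j := toSum_inj h
      have h2 := hf y
      rw [h1] at h2
      exact h2)
    (by
      intro y l k h
      have h1 : kind y = .mono l k := toSum_inj h
      have h2 := hf y
      rw [h1] at h2
      exact h2)
    (by
      intro y l i h
      have h1 : kind y = .pole l i := toSum_inj h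
      have h2 := hf y
      rw [h1] at h2
      exact h2)
  exact Y771.RP.main' m' n g d f K hK (fun y t ht => han y t (hKU ht)) (fun t ht => hloc t (hKU ht)) A ε hε

/-- The rational numbers `q` in `[a, b]` with numerator and denominator at most `T` in absolute value such that, for
`σ = 1` or `σ = -1`, some integers `u`, `v`, not both zero, of absolute value at most `T ^ A` satisfy
`|v (π + σ e^(p(q))) - u| ≤ T ^ (-B)`. -/
def Near (p : Polynomial ℝ) (a b A B T : ℝ) : Set ℚ :=
  {q | a ≤ q ∧ q ≤ b ∧ |(q.num : ℝ)| ≤ T ∧ (q.den : ℝ) ≤ T ∧ ∃ σ u v : ℤ, (σ = 1 ∨ σ = -1) ∧ (u ≠ 0 ∨ v ≠ 0) ∧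
    |(u : ℝ)| ≤ T ^ A ∧ |(v : ℝ)| ≤ T ^ A ∧ |(v : ℝ) * (Real.pi + σ * Real.exp (p.eval (q : ℝ))) - u| ≤ T ^ (-B)}

theorem ringHom_rat (φ : ℚ →+* ℂ) (x : ℤ) : φ (((x : 𝓞 ℚ) : ℚ)) = x := by
  show φ (algebraMap (𝓞 ℚ) ℚ (x : 𝓞 ℚ)) = x
  rw [map_intCast, map_intCast]

open MvPolynomial in
theorem near (p : Polynomial ℝ) (hp : p.natDegree ≠ 0) (a b : ℝ) (A ε : ℝ) (hε : 0 < ε) :
    ∃ B C T₀ : ℝ, ∀ T : ℝ, T₀ ≤ T → (Near p a b A B T).Finite ∧ ((Near p a b A B T).ncard : ℝ) ≤ C * T ^ ε := by
  have hpm : (p.map Complex.ofRealHom).natDegree ≠ 0 := by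
    rwa [Polynomial.natDegree_map_eq_of_injective Complex.ofReal_injective]
  obtain ⟨B, C, T₀, h⟩ := general (κ := Fin 1) (m := 1) (s := 0) (r := 0) (fun _ => p.map Complex.ofRealHom) (by
    intro k hk
    simp only [Finset.univ_unique, Fin.default_eq_zero, Finset.sum_singleton] at hk
    by_contra hne
    have hk0 : k 0 ≠ 0 := by
      intro h
      apply hne
      funext i
      rw [Subsingleton.elim i 0, h]
      rfl
    rw [Polynomial.natDegree_C_mul (by exact_mod_cast hk0)] at hk
    exact hpm hk) Fin.elim0 (fun i => i.elim0) Fin.elim0 (fun i => i.elim0) univ isOpen_univ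
    (fun _ z => Complex.exp ((p.map Complex.ofRealHom).eval z)) (fun _ => Kind.expo 0)
    (fun _ _ _ => Subsingleton.elim _ _) (fun _ z _ => rfl)
    ((fun x : ℝ => (x : ℂ)) '' Icc a b) (isCompact_Icc.image Complex.continuous_ofReal) (subset_univ _) 1 1 2 1 A ε hε
  refine ⟨B, C, max T₀ 1, fun T hT => ?_⟩
  have hT1 : 1 ≤ T := (le_max_right _ _).trans hT
  obtain ⟨h1, h2⟩ := h ℚ (by simp) (algebraMap ℚ ℂ) ![1, (Real.pi : ℂ)] T ((le_max_left _ _).trans hT)
  have hT0 : (0 : ℝ) ≤ T ^ A := by positivity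
  set E := Exceptional (fun (_ : Fin 1) z => Complex.exp ((p.map Complex.ofRealHom).eval z)) 1 1 ℚ (algebraMap ℚ ℂ)
    ![1, (Real.pi : ℂ)] ((fun x : ℝ => (x : ℂ)) '' Icc a b) A B T with hE
  have hmap : ∀ q ∈ Near p a b A B T, (fun _ : Fin 1 => q) ∈ E := by
    rintro q ⟨hq1, hq2, hq3, hq4, σ, u, v, hσ, huv, hu, hv, hsm⟩
    refine ⟨fun _ => ⟨⟨(q : ℝ), ⟨hq1, hq2⟩, by simp⟩, ((q.num : ℤ) : 𝓞 ℚ), ((q.den : ℤ) : 𝓞 ℚ), ?_, ?_, ?_⟩, ?_⟩
    · intro h
      have h3 := congrArg (algebraMap (𝓞 ℚ) ℚ) h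
      simp at h3
    · intro φ
      rw [ringHom_rat, ringHom_rat]
      constructor
      · rw [← Complex.ofReal_intCast, Complex.norm_real, Real.norm_eq_abs]
        exact hq3
      · rw [← Complex.ofReal_intCast, Complex.norm_real, Real.norm_eq_abs]
        simpa using hq4
    · simp [Rat.num_div_den]
    set x0 : Fin 1 × Fin 1 := (0, 0)
    let P : MvPolynomial (Fin 1 × Fin 1) ℂ := MvPolynomial.C ((σ : ℂ) * v) * X x0 + MvPolynomial.C ((Real.pi : ℂ) * v - u)
    have hz0 : (Finsupp.single x0 1 : Fin 1 × Fin 1 →₀ ℕ) ≠ 0 := by simp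
    have hco : ∀ m, P.coeff m = (if Finsupp.single x0 1 = m then (σ : ℂ) * v else 0) +
        (if 0 = m then (Real.pi : ℂ) * v - u else 0) := by
      intro m
      simp only [P, coeff_add, coeff_C_mul, coeff_X, coeff_C, mul_ite, mul_one, mul_zero]
    have hσ1 : ‖(σ : ℂ)‖ = 1 := by
      rcases hσ with h | h <;> simp [h]
    have hval : aeval (fun x : Fin 1 × Fin 1 => Complex.exp ((p.map Complex.ofRealHom).eval ((algebraMap ℚ ℂ) q))) P =
        (((v : ℝ) * (Real.pi + σ * Real.exp (p.eval (q : ℝ))) - u : ℝ) : ℂ) := by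
      have h3 : (p.map Complex.ofRealHom).eval ((algebraMap ℚ ℂ) q) = ((p.eval (q : ℝ) : ℝ) : ℂ) := by
        have : (algebraMap ℚ ℂ) q = Complex.ofRealHom (q : ℝ) := by simp
        rw [this, Polynomial.eval_map_apply]
        rfl
      simp only [P, map_add, map_mul, aeval_X, aeval_C, h3, Algebra.algebraMap_self, RingHom.id_apply]
      push_cast
      ring
    have hle : ∀ w : ℂ, 1 ≤ ‖w‖ → ‖aeval (fun x : Fin 1 × Fin 1 =>
        Complex.exp ((p.map Complex.ofRealHom).eval ((algebraMap ℚ ℂ) q))) P‖ ≤ T ^ (-B) * ‖w‖ := by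
      intro w hw
      rw [hval, Complex.norm_real, Real.norm_eq_abs]
      refine hsm.trans ?_
      exact le_mul_of_one_le_right (by positivity) hw
    have hint : ∀ x : ℤ, x ≠ 0 → 1 ≤ ‖(x : ℂ)‖ := by
      intro x hx
      rw [← Complex.ofReal_intCast, Complex.norm_real, Real.norm_eq_abs]
      exact_mod_cast Int.one_le_abs hx
    refine ⟨P, ?_, ?_, ?_⟩
    · intro x
      refine (degreeOf_add_le _ _ _).trans (max_le ((degreeOf_C_mul_le _ _ _).trans ?_) ?_)
      · rw [degreeOf_X]
        split_ifs <;> simp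
      · rw [degreeOf_C]
        exact Nat.zero_le _
    · intro m
      have hb : ∀ x : ℤ, |(x : ℝ)| ≤ T ^ A → ∀ φ : ℚ →+* ℂ, ‖φ (((x : 𝓞 ℚ) : ℚ))‖ ≤ T ^ A := by
        intro x hx φ
        rw [ringHom_rat, ← Complex.ofReal_intCast, Complex.norm_real, Real.norm_eq_abs]
        exact hx
      have hσv : |((σ * v : ℤ) : ℝ)| ≤ T ^ A := by
        push_cast
        rw [abs_mul]
        rcases hσ with h | h <;> rw [h] <;> simpa using hv
      have hnu : |((-u : ℤ) : ℝ)| ≤ T ^ A := by
        push_cast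
        rwa [abs_neg]
      have h00 : |((0 : ℤ) : ℝ)| ≤ T ^ A := by simpa using hT0
      by_cases c0 : Finsupp.single x0 1 = m
      · have c2 : ¬ (0 = m) := fun h => hz0 (c0.trans h.symm)
        refine ⟨![((σ * v : ℤ) : 𝓞 ℚ), ((0 : ℤ) : 𝓞 ℚ)], ?_, ?_⟩
        · intro i φ
          fin_cases i
          · exact hb _ hσv φ
          · exact hb _ h00 φ
        · rw [hco m, if_pos c0, if_neg c2]
          simp
      · by_cases c2 : 0 = m
        · refine ⟨![((-u : ℤ) : 𝓞 ℚ), ((v : ℤ) : 𝓞 ℚ)], ?_, ?_⟩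
          · intro i φ
            fin_cases i
            · exact hb _ hnu φ
            · exact hb _ hv φ
          · rw [hco m, if_neg c0, if_pos c2]
            simp
            ring
        · refine ⟨![((0 : ℤ) : 𝓞 ℚ), ((0 : ℤ) : 𝓞 ℚ)], ?_, ?_⟩
          · intro i φ
            fin_cases i
            · exact hb _ h00 φ
            · exact hb _ h00 φ
          · rw [hco m, if_neg c0, if_neg c2]
            simp
    · by_cases hv0 : v = 0
      · have hu0 : u ≠ 0 := huv.resolve_right (fun h => h hv0)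
        have hc : P.coeff 0 = -(u : ℂ) := by
          rw [hco, if_neg hz0, if_pos rfl, hv0]
          simp
        refine ⟨0, ?_, hle _ ?_⟩
        · rw [hc]
          exact neg_ne_zero.2 (by exact_mod_cast hu0)
        · rw [hc, norm_neg]
          exact hint u hu0
      · have hc : P.coeff (Finsupp.single x0 1) = (σ : ℂ) * v := by
          rw [hco, if_pos rfl, if_neg hz0.symm, add_zero]
        have hn : 1 ≤ ‖P.coeff (Finsupp.single x0 1)‖ := by
          rw [hc, norm_mul, hσ1, one_mul]
          exact hint v hv0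
        refine ⟨Finsupp.single x0 1, ?_, hle _ hn⟩
        intro h0
        rw [h0, norm_zero] at hn
        linarith
  have hinj : Set.InjOn (fun (q : ℚ) (_ : Fin 1) => q) (Near p a b A B T) := fun x _ y _ hxy => congrFun hxy 0
  have himg : (fun (q : ℚ) (_ : Fin 1) => q) '' (Near p a b A B T) ⊆ E := by
    rintro _ ⟨q, hq, rfl⟩
    exact hmap q hq
  have hfin : (Near p a b A B T).Finite := Set.Finite.of_finite_image (h1.subset himg) hinj
  refine ⟨hfin, ?_⟩
  have h3 : (Near p a b A B T).ncard ≤ E.ncard := by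
    rw [← hinj.ncard_image]
    exact Set.ncard_le_ncard himg h1
  have h4 : ((Near p a b A B T).ncard : ℝ) ≤ (E.ncard : ℝ) := by
    exact_mod_cast h3
  refine h4.trans (h2.trans (le_of_eq ?_))
  norm_num

/-- Two assertions: the general one, and the one for the numbers `π + e^(p(q))`, `π - e^(p(q))`. -/
theorem result :
    (∀ (κ : Type) [Fintype κ] (m s r : ℕ) (p : Fin m → Polynomial ℂ),
      (∀ k : Fin m → ℤ, (∑ j, Polynomial.C (k j : ℂ) * p j).natDegree = 0 → k = 0) →
      ∀ ν : Fin s → Fin m → ℤ, Function.Injective ν → ∀ w : Fin r → ℂ, Function.Injective w →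
      ∀ U : Set ℂ, IsOpen U → ∀ (f : κ → ℂ → ℂ) (kind : κ → Kind m s r), Function.Injective kind →
      (∀ y, IsKind p ν w U (f y) (kind y)) → FewExceptions U f) ∧
    (∀ p : Polynomial ℝ, p.natDegree ≠ 0 → ∀ a b A ε : ℝ, 0 < ε →
      ∃ B C T₀ : ℝ, ∀ T : ℝ, T₀ ≤ T → (Near p a b A B T).Finite ∧ ((Near p a b A B T).ncard : ℝ) ≤ C * T ^ ε) :=
  ⟨fun _ _ _ _ _ p hp ν hν w hw U hU f kind hk hf => general p hp ν hν w hw U hU f kind hk hf,
    fun p hp a b A ε hε => near p hp a b A ε hε⟩

end Pool.Agent.Results.MP_363d4d_nt.ExponentialsOfPolynomials
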