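import Mathlib
import Pool.Agent.Q29.EqRat

/-!
# Uniform distribution of the multiples of the numbers `π + r e`, `r` rational, and of the values of polynomials at them

Let `t` be any real number, for instance `t = π`. At most one of the numbers `t + r e`, `r` rational, is rational, and at
most one is algebraic. The multiples of a rational number by the integers up to `M`, by their powers or by the primes up
to `M` are not uniformly distributed modulo one at any large scale `M`; if `x` is algebraic of degree at most `D`, this
happens for some `P(x)`, `P` a nonconstant integer polynomial of degree at most `D`. We prove that at every scale at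
most one of the numbers `t + r e` has such a defect, uniformly in `r`: for all `D`, `K` and `A` there is `κ > 0` such that
for every large `N` (depending on a bound for `|t|` only) there is at most one rational number `r` with numerator and
denominator at most `N ^ κ` such that `x = t + r e` does not have the following property. For all nonconstant integer
polynomials `P` of degree at most `D` and height at most `N ^ κ` and all `M` from `N` to `N ^ A`, the multiples of `P(x)` by
the integers up to `M`, by their `k`-th powers, `k ≤ K` (even with a real polynomial of degree less than `k` added), and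
by the primes up to `M` in each residue class modulo `d ≤ M ^ κ`, are uniformly distributed modulo one with an error
`M ^ (1 - κ)`. In particular, for every large `N`, all the polynomials `P` and all `M` from `N` to `N ^ A` at once, this holds
for `π + e`, or it holds for `π - e`. The same is proved with `π` in place of `e` (for instance for the numbers `e + r π`).

The proof uses the resultant of `v ^ d (q P - p)((v y + u x) / v)` and of the analogous polynomial for another rational
number `u' / v'`, which is not zero as `x` is transcendental, and the transcendence measures of `e` and `π` in the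
starting files `Pool/Agent/TH456/TM/`; an inverse theorem for the sums of Weyl and a form of the estimate of Vinogradov
for the sums over primes with a power saving from the starting files (`H373R2/NB`, `W110/HV`).
-/

set_option autoImplicit false

namespace Pool.Agent.Results.MP_363d4d_nt.MultiplesAlongPrimes

open Finset Polynomial

/-- The multiples of `x` are uniformly distributed at the scale `M`, with a power saving, along all polynomials of degree
at most `K` and along the primes of all residue classes:

* for every nonzero integer `b` with `|b| ≤ M ^ κ`, every `1 ≤ k ≤ K` and every real polynomial `R` of degree less than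
  `k`, the number of `0 ≤ n < M` with the fractional part of `b x n ^ k + R(n)` in `[u, v)` is `(v - u) M` up to
  `M ^ (1 - κ)`, for all `0 ≤ u ≤ v ≤ 1`;
* for every such `b`, every `1 ≤ d ≤ M ^ κ`, every `r` and every real `β`, the number of primes `p ≤ M` with
  `p ≡ r (mod d)` and the fractional part of `b x p + β` in `[u, v)` is `(v - u)` times the number of all the primes
  `p ≤ M` with `p ≡ r (mod d)`, up to `M ^ (1 - κ)`. -/
def Good (κ : ℝ) (K M : ℕ) (x : ℝ) : Prop :=
  (∀ b : ℤ, b ≠ 0 → |(b : ℝ)| ≤ (M : ℝ) ^ κ → ∀ k : ℕ, 1 ≤ k → k ≤ K → ∀ R : ℝ[X], R.degree < k →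
    ∀ u v : ℝ, 0 ≤ u → u ≤ v → v ≤ 1 →
      |(((range M).filter fun n : ℕ => u ≤ Int.fract (b * x * (n : ℝ) ^ k + R.eval (n : ℝ)) ∧
          Int.fract (b * x * (n : ℝ) ^ k + R.eval (n : ℝ)) < v).card : ℝ) - (v - u) * M| ≤
        (M : ℝ) ^ (1 - κ)) ∧
  (∀ b : ℤ, b ≠ 0 → |(b : ℝ)| ≤ (M : ℝ) ^ κ → ∀ d r : ℕ, 1 ≤ d → (d : ℝ) ≤ (M : ℝ) ^ κ → ∀ β : ℝ,
    ∀ u v : ℝ, 0 ≤ u → u ≤ v → v ≤ 1 →
      |(((range (M + 1)).filter fun p : ℕ => (p.Prime ∧ p ≡ r [MOD d]) ∧
          (u ≤ Int.fract (b * x * p + β) ∧ Int.fract (b * x * p + β) < v)).card : ℝ) -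
        (v - u) * ((range (M + 1)).filter fun p : ℕ => p.Prime ∧ p ≡ r [MOD d]).card| ≤
        (M : ℝ) ^ (1 - κ))

/-- All the values `P(x)`, `P` a nonconstant integer polynomial of degree at most `D` with coefficients bounded by
`N ^ κ`, have uniformly distributed multiples at all the scales `M` from `N` to `N ^ A`. If `x` is algebraic of degree at
most `D`, then this fails for all large `N`, since some `P(x)` is an integer. -/
def AllGood (x : ℝ) (D K : ℕ) (A κ : ℝ) (N : ℕ) : Prop :=
  ∀ P : ℤ[X], 0 < P.natDegree → P.natDegree ≤ D → (∀ n, |(P.coeff n : ℝ)| ≤ (N : ℝ) ^ κ) →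
    ∀ M : ℕ, N ≤ M → (M : ℝ) ≤ (N : ℝ) ^ A → Good κ K M (aeval x P)

theorem good_iff (κ : ℝ) (K M : ℕ) (x : ℝ) : Good κ K M x ↔ Pool.Agent.Q29.Eqd.Good κ K M x := Iff.rfl

theorem allGood_iff (x : ℝ) (D K : ℕ) (A κ : ℝ) (N : ℕ) :
    AllGood x D K A κ N ↔ Pool.Agent.Q29.Eqd.AllGood x D K A κ N := by
  unfold AllGood Pool.Agent.Q29.Eqd.AllGood
  simp only [good_iff]

/-- **At every scale at most one of the numbers `t + r z`, `r` rational, is exceptional.** Let `z = e` or `z = π`. For all
`D ≥ 1`, `K` and every `A ≥ 1` there is `κ > 0` such that for every `T ≥ 1` there is `N₀` such that for all `N ≥ N₀` and all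
real `t` with `|t| ≤ T` there is at most one rational number `r` with numerator and denominator at most `N ^ κ` for which
`t + r z` does not have the property `AllGood`. -/
theorem result : ∀ z : ℝ, z = Real.exp 1 ∨ z = Real.pi → ∀ (D K : ℕ) (A : ℝ), 1 ≤ D → 1 ≤ A →
    ∃ κ : ℝ, 0 < κ ∧ ∀ T : ℝ, 1 ≤ T → ∃ N₀ : ℕ, ∀ N : ℕ, N₀ ≤ N → ∀ t : ℝ, |t| ≤ T →
      {r : ℚ | |(r.num : ℝ)| ≤ (N : ℝ) ^ κ ∧ (r.den : ℝ) ≤ (N : ℝ) ^ κ ∧
        ¬ AllGood (t + r * z) D K A κ N}.Subsingleton := by
  intro z hz D K A hD hA
  have hm : Pool.Agent.TH456.TM.MeasT (z : ℂ) := by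
    rcases hz with rfl | rfl
    · exact Pool.Agent.TH456.TM.measT_e
    · exact Pool.Agent.TH456.TM.measT_pi
  obtain ⟨κ, hκ, h⟩ := Pool.Agent.Q29.Eqd.rat_good z hm D K A hD hA
  refine ⟨κ, hκ, fun T hT => ?_⟩
  obtain ⟨N₀, hN₀⟩ := h T hT
  refine ⟨N₀, fun N hN t ht => ?_⟩
  have h1 := hN₀ N hN t ht
  simp only [allGood_iff]
  exact h1

end Pool.Agent.Results.MP_363d4d_nt.MultiplesAlongPrimes
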