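import Pool.Agent.Q28.HP.Main

/-!
# `π + e`, `π - e` and powers of algebraic numbers with exponents `a' π + b' e + c'`

Let `a, b` be algebraic numbers, `b ≠ 0`, for instance `a π + b e = π + e` or `π - e`.

(A) Let `e ^ u` and `e ^ v` be algebraic, `u`, `v` linearly independent over the rationals, and let
`x`, `y` be irrational numbers of the form `a' π + b' e + c'` with algebraic coefficients.  Then at least one
of the three numbers `a π + b e`, `e ^ (x u)`, `e ^ (y v)` is transcendental.  For example at least one of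
`π + e`, `2 ^ π`, `3 ^ e` is transcendental.

(B) Either `a π + b e` is transcendental, or for every `D ≥ 1` and all `N` there are at most
`(log₂ N + 1) ^ (D (D + 1) - 1)` integers `2 ≤ n ≤ N` which have an algebraic power
`n ^ P(π, e)` with irrational `P(π, e)` for some polynomial `P` with algebraic coefficients and of total degree at
most `D`.

The proof uses the hyperplane case of the linear subgroup theorem of Waldschmidt and Roy and Baker's
theorem (starting files).
-/

set_option autoImplicit false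

namespace Pool.Agent.Results.MP_363d4d_nt.OneOfThree

open Module Finset MvPolynomial

/-- `x` is irrational and of the form `a π + b e + c` with algebraic (complex) numbers `a, b, c`. -/
def Form (x : ℂ) : Prop :=
  (∀ q : ℚ, x ≠ q) ∧ ∃ a b c : ℂ, IsAlgebraic ℚ a ∧ IsAlgebraic ℚ b ∧ IsAlgebraic ℚ c ∧
    x = a * Real.pi + b * Real.exp 1 + c

open Pool.Agent.H301R2.SSE (QB mem_QB Lt Lt_alg Lt_log)
open Pool.Agent.W254.HP (opt_indep)
open Pool.Agent.Q28.HP

/-- Gelfond-Schneider -/
theorem gs' {u P : ℂ} (hu0 : u ≠ 0) (hu : IsAlgebraic ℚ (Complex.exp u)) (hP : IsAlgebraic ℚ P)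
    (hq : ∀ q : ℚ, P ≠ q) : ¬ IsAlgebraic ℚ (Complex.exp (P * u)) := by
  intro h
  by_cases hli : LinearIndependent ℚ ![u, P * u]
  · have h1 := opt_indep ![u, P * u] (fun i => by
      fin_cases i
      · exact hu
      · exact h) hli
    rw [Fintype.linearIndependent_iff] at h1
    have h2 := h1 (fun o => o.elim 0 ![⟨P, mem_QB.mpr hP⟩, -1]) (by
      rw [Fintype.sum_option, Fin.sum_univ_two]
      simp only [Option.elim_none, Option.elim_some, Algebra.smul_def]
      show algebraMap QB ℂ 0 * 1 + (P * u + algebraMap QB ℂ (-1) * (P * u)) = 0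
      rw [map_zero, map_neg, map_one]
      ring) (some 1)
    have h3 : (-1 : QB) = 0 := h2
    exact (by norm_num : (-1 : QB) ≠ 0) h3
  · rw [LinearIndependent.pair_iff] at hli
    push Not at hli
    obtain ⟨s, t, hst, hne⟩ := hli
    have h3 : ((s : ℂ) + t * P) * u = 0 := by
      have : s • u + t • (P * u) = ((s : ℂ) + t * P) * u := by
        rw [Rat.smul_def, Rat.smul_def]; ring
      rw [← this]; exact hst
    have h4 : (s : ℂ) + t * P = 0 := by
      rcases mul_eq_zero.mp h3 with h | h
      · exact h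
      · exact absurd h hu0
    by_cases ht : t = 0
    · subst ht
      have : s = 0 := by
        have h5 : (s : ℂ) = 0 := by simpa using h4
        exact_mod_cast h5
      exact hne this rfl
    · have htc : (t : ℂ) ≠ 0 := by exact_mod_cast ht
      apply hq (-s / t)
      push_cast
      field_simp
      linear_combination h4

/-- the values at `π` of the polynomials of degree at most `D` -/
noncomputable def Vp (D : ℕ) : Submodule QB ℂ :=
  (Polynomial.degreeLT QB (D + 1)).map (Polynomial.aeval (Real.pi : ℂ)).toLinearMap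

instance (D : ℕ) : FiniteDimensional QB (Polynomial.degreeLT QB (D + 1)) :=
  (Polynomial.degreeLTEquiv QB (D + 1)).symm.finiteDimensional

instance (D : ℕ) : FiniteDimensional QB (Vp D) := by
  unfold Vp; infer_instance

theorem Vp_rank (D : ℕ) : finrank QB (Vp D) ≤ D + 1 := by
  refine (Submodule.finrank_map_le _ _).trans ?_
  rw [LinearEquiv.finrank_eq (Polynomial.degreeLTEquiv QB (D + 1))]
  simp

theorem mem_Vp {D : ℕ} (p : Polynomial QB) (hp : p.natDegree ≤ D) :
    Polynomial.aeval (Real.pi : ℂ) p ∈ Vp D :=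
  ⟨p, Polynomial.mem_degreeLT.mpr (lt_of_le_of_lt Polynomial.degree_le_natDegree
    (by exact_mod_cast (by omega : p.natDegree < D + 1))), rfl⟩

theorem one_Vp (D : ℕ) : (1 : ℂ) ∈ Vp D := by
  have := mem_Vp (D := D) 1 (by simp)
  simpa using this

theorem pi_Vp (D : ℕ) (hD : 1 ≤ D) : (Real.pi : ℂ) ∈ Vp D := by
  have := mem_Vp (D := D) Polynomial.X (by simpa using hD)
  simpa using this

section
variable {a b : ℂ} (ha : IsAlgebraic ℚ a) (hb : IsAlgebraic ℚ b) (hb0 : b ≠ 0)
  (h : IsAlgebraic ℚ (a * Real.pi + b * Real.exp 1))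
include ha hb hb0 h

/-- `e` is a linear polynomial in `π` -/
theorem e_eq : ∃ p : Polynomial QB, p.natDegree ≤ 1 ∧ Polynomial.aeval (Real.pi : ℂ) p = Real.exp 1 := by
  let c : QB := ⟨(a * Real.pi + b * Real.exp 1) / b, mem_QB.mpr (by
    rw [div_eq_mul_inv]; exact h.mul hb.inv)⟩
  let d : QB := ⟨-a / b, mem_QB.mpr (by rw [div_eq_mul_inv]; exact ha.neg.mul hb.inv)⟩
  refine ⟨Polynomial.C d * Polynomial.X + Polynomial.C c, Polynomial.natDegree_linear_le, ?_⟩
  simp only [map_add, map_mul, Polynomial.aeval_C, Polynomial.aeval_X]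
  show (-a / b) * (Real.pi : ℂ) + (a * Real.pi + b * Real.exp 1) / b = _
  field_simp
  ring

theorem mono_Vp {D i j : ℕ} (hij : i + j ≤ D) :
    (Real.pi : ℂ) ^ i * (Real.exp 1 : ℂ) ^ j ∈ Vp D := by
  obtain ⟨p, hp1, hp2⟩ := e_eq ha hb hb0 h
  have h1 := mem_Vp (D := D) (Polynomial.X ^ i * p ^ j) (by
    refine Polynomial.natDegree_mul_le.trans ?_
    have h2 : (p ^ j).natDegree ≤ j * 1 := Polynomial.natDegree_pow_le.trans (Nat.mul_le_mul_left _ hp1)
    have h3 : (Polynomial.X ^ i : Polynomial QB).natDegree ≤ i := Polynomial.natDegree_X_pow_le _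
    omega)
  rw [map_mul, map_pow, map_pow, Polynomial.aeval_X, hp2] at h1
  exact h1

theorem form_Vp {x : ℂ} (hx : Form x) : x ∈ Vp 1 := by
  obtain ⟨-, a', b', c', ha', hb', hc', rfl⟩ := hx
  have e1 : a' * Real.pi + b' * Real.exp 1 + c' =
      (⟨a', mem_QB.mpr ha'⟩ : QB) • (Real.pi : ℂ) + (⟨b', mem_QB.mpr hb'⟩ : QB) • (Real.exp 1 : ℂ) +
      (⟨c', mem_QB.mpr hc'⟩ : QB) • (1 : ℂ) := by
    rw [Algebra.smul_def, Algebra.smul_def, Algebra.smul_def, mul_one]; rfl
  rw [e1]
  have hpi : (Real.pi : ℂ) ∈ Vp 1 := pi_Vp 1 le_rfl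
  have he : (Real.exp 1 : ℂ) ∈ Vp 1 := by
    have := mono_Vp ha hb hb0 h (D := 1) (i := 0) (j := 1) (by norm_num)
    simpa using this
  exact (Vp 1).add_mem ((Vp 1).add_mem ((Vp 1).smul_mem _ hpi) ((Vp 1).smul_mem _ he))
    ((Vp 1).smul_mem _ (one_Vp 1))

end

theorem result :
    -- (A) one of three numbers is transcendental
    (∀ a b u v x y : ℂ, IsAlgebraic ℚ a → IsAlgebraic ℚ b → b ≠ 0 →
      IsAlgebraic ℚ (Complex.exp u) → IsAlgebraic ℚ (Complex.exp v) →
      LinearIndependent ℚ ![u, v] → Form x → Form y →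
      Transcendental ℚ (a * Real.pi + b * Real.exp 1) ∨ Transcendental ℚ (Complex.exp (x * u)) ∨
        Transcendental ℚ (Complex.exp (y * v))) ∧
    -- (B) polynomial exponents
    (∀ a b : ℂ, IsAlgebraic ℚ a → IsAlgebraic ℚ b → b ≠ 0 →
      Transcendental ℚ (a * Real.pi + b * Real.exp 1) ∨ ∀ D N : ℕ, 1 ≤ D →
        {n : ℕ | 2 ≤ n ∧ n ≤ N ∧ ∃ P : MvPolynomial (Fin 2) (algebraicClosure ℚ ℂ),
          P.totalDegree ≤ D ∧ (∀ q : ℚ, aeval ![(Real.pi : ℂ), (Real.exp 1 : ℂ)] P ≠ q) ∧
          IsAlgebraic ℚ ((n : ℂ) ^ (aeval ![(Real.pi : ℂ), (Real.exp 1 : ℂ)] P))}.ncard ≤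
            (Nat.log 2 N + 1) ^ (D * (D + 1) - 1)) := by
  classical
  refine ⟨fun a b u v x y ha hb hb0 hu hv huv hx hy => ?_, fun a b ha hb hb0 => ?_⟩
  · by_contra hcon
    simp only [Transcendental, not_or, not_not] at hcon
    obtain ⟨h, hxu, hyv⟩ := hcon
    have hu0 : u ≠ 0 := huv.ne_zero 0
    have hv0 : v ≠ 0 := huv.ne_zero 1
    have hpV : (Real.pi : ℂ) ∈ Vp 1 := pi_Vp 1 le_rfl
    have hmain := core (κ := Fin 2) (Vp 1) (Vp 1) (one_Vp 1) le_rfl 0
      (fun v _ => by rw [mul_zero]; exact (Vp 1).zero_mem) ![u, v] (fun k => by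
        fin_cases k
        · exact hu
        · exact hv) huv (fun _ => 0) (fun _ => 0) ![x, y] (fun k => by
        fin_cases k
        · exact form_Vp ha hb hb0 h hx
        · exact form_Vp ha hb hb0 h hy) (fun k => by
        fin_cases k
        · exact fun hal => gs' hu0 hu hal hx.1 hxu
        · exact fun hal => gs' hv0 hv hal hy.1 hyv) (fun k => by
        have h5 : ((0 : QB) : ℂ) = 0 := rfl
        fin_cases k
        · show x * (u + ((0 : QB) : ℂ) * 0 + ((0 : QB) : ℂ)) ∈ Lt
          rw [h5, zero_mul, add_zero, add_zero]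
          exact Lt_log hxu
        · show y * (v + ((0 : QB) : ℂ) * 0 + ((0 : QB) : ℂ)) ∈ Lt
          rw [h5, zero_mul, add_zero, add_zero]
          exact Lt_log hyv)
    have h2 := two_le (Vp 1) (one_Vp 1) hpV
    have h3 := Vp_rank 1
    have h4 : finrank QB (Vp 1) * (finrank QB (Vp 1) - 1) ≤ 2 * 1 :=
      Nat.mul_le_mul h3 (by omega)
    rw [Fintype.card_fin] at hmain
    omega
  · by_cases h : IsAlgebraic ℚ (a * Real.pi + b * Real.exp 1)
    · right
      intro D N hD
      have hcount := exc_count (Vp D) (Vp D) (one_Vp D) le_rfl 0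
        (fun v _ => by rw [mul_zero]; exact (Vp D).zero_mem) N
      refine le_trans ?_ (hcount.trans (Nat.pow_le_pow_right (by omega) ?_))
      · apply Set.ncard_le_ncard
        · rintro n ⟨hn, hnN, P, hP, hq, halg⟩
          have hne : (n : ℂ) ≠ 0 := by
            have : n ≠ 0 := by omega
            exact_mod_cast this
          have hexp : ∀ P : ℂ, (n : ℂ) ^ P = Complex.exp (P * Real.log n) := fun P => by
            rw [Complex.cpow_def_of_ne_zero hne, Complex.natCast_log, mul_comm]
          rw [hexp] at halg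
          refine ⟨⟨by omega, _, ?_, fun hal => gs hn hal hq halg, 0, 0, ?_⟩, hnN⟩
          · rw [aeval_def, eval₂_eq']
            apply (Vp D).sum_mem
            intro d hd
            rw [Fin.prod_univ_two]
            have h6 : d 0 + d 1 ≤ D := by
              have := (le_totalDegree hd).trans hP
              rw [Finsupp.sum_fintype _ _ (fun _ => rfl), Fin.sum_univ_two] at this
              exact this
            have := (Vp D).smul_mem (coeff d P) (mono_Vp ha hb hb0 h h6)
            rwa [Algebra.smul_def] at this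
          · have h5 : ((0 : QB) : ℂ) = 0 := rfl
            rw [h5, zero_mul, add_zero, add_zero]
            exact Lt_log halg
        · exact (Set.finite_Icc 0 N).subset (fun n hn => ⟨Nat.zero_le _, hn.2⟩)
      · have h2 := two_le (Vp D) (one_Vp D) (pi_Vp D hD)
        have h3 := Vp_rank D
        have h4 : finrank QB (Vp D) * (finrank QB (Vp D) - 1) ≤ (D + 1) * D :=
          Nat.mul_le_mul h3 (by omega)
        have h5 : D * (D + 1) = (D + 1) * D := mul_comm _ _
        omega
    · left
      exact h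

end Pool.Agent.Results.MP_363d4d_nt.OneOfThree
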